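import Mathlib

open Set Filter Topology

/-!
# A compact space `X` such that `C_p(X)` has no `T₀`-separating weakly σ-point-finite family

The space is `X = βω \ ω`, the space of free ultrafilters on `ℕ`.  We work with the characteristic
functions `χ a` of the clopen sets `{u | a ∈ u}`, `a ⊆ ℕ`.  A condition is a pair `(a, e)` with
`e ⊆ ℕ` infinite; it stands for the set `B (a, e)` of all `χ a'` with `(a' ∆ a) \ e` finite.
Conditions are σ-closed, and a condition can be extended into any open set which meets it.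
A genericity argument then shows that for a weakly σ-point-finite family of open sets there is a
condition met by only countably many members of the family, and below this condition there is
another one which is contained in or disjoint from every member of the family.
-/

namespace Pool.Agent.Results.MP_0df558_gt.NoSeparatingFamily

/-- `C_p(X)`: the continuous real functions on `X` with the topology of pointwise convergence, i.e.
with the subspace topology from the product `X → ℝ`. -/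
abbrev Cp (X : Type) [TopologicalSpace X] : Type := {f : X → ℝ // Continuous f}

/-- Cozero sets. -/
def IsCozero {Z : Type} [TopologicalSpace Z] (U : Set Z) : Prop :=
  ∃ g : Z → ℝ, Continuous g ∧ U = {z | g z ≠ 0}

/-- The family `𝒱` is point-finite at `z`: only finitely many members of `𝒱` contain `z`. -/
def PointFiniteAt {Z : Type} (𝒱 : Set (Set Z)) (z : Z) : Prop := {V ∈ 𝒱 | z ∈ V}.Finite

/-- Weakly σ-point-finite families. -/
def WeaklySigmaPointFinite {Z : Type} (𝒰 : Set (Set Z)) : Prop :=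
  ∃ 𝒱 : ℕ → Set (Set Z), (∀ n, 𝒱 n ⊆ 𝒰) ∧
    ∀ z, 𝒰 = ⋃ n ∈ {n : ℕ | PointFiniteAt (𝒱 n) z}, 𝒱 n

/-- `T₀`-separating families: for distinct `z`, `w` some member contains exactly one of them. -/
def T0Separating {Z : Type} (𝒰 : Set (Set Z)) : Prop :=
  ∀ z w, z ≠ w → ∃ U ∈ 𝒰, (z ∈ U ∧ w ∉ U) ∨ (w ∈ U ∧ z ∉ U)

/-- Lindelöf Σ-spaces. -/
def IsLindelofSigma (X : Type) [TopologicalSpace X] : Prop :=
  ∃ (𝒞 : Set (Set X)) (ℱ : Set (Set X)), (∀ C ∈ 𝒞, IsCompact C) ∧ ⋃₀ 𝒞 = univ ∧ ℱ.Countable ∧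
    ∀ C ∈ 𝒞, ∀ U, IsOpen U → C ⊆ U → ∃ F ∈ ℱ, C ⊆ F ∧ F ⊆ U

section abstractpart

variable {Z : Type} [TopologicalSpace Z] {P : Type} [Preorder P] (B : P → Set Z)

/-- `q` decides to be contained in at least `m` members of `𝒱`. -/
def Forces (𝒱 : Set (Set Z)) (m : ℕ) (q : P) : Prop :=
  ∃ S : Finset (Set Z), S.card = m ∧ ∀ U ∈ S, U ∈ 𝒱 ∧ B q ⊆ U

/-- `q` is good for `𝒱`: only countably many members of `𝒱` meet `B q`. -/
def Good (𝒱 : Set (Set Z)) (q : P) : Prop := {U ∈ 𝒱 | (U ∩ B q).Nonempty}.Countable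

/-- decreasing sequences obtained by iterating extension steps -/
lemma exists_generic (hσ : ∀ p : ℕ → P, (∀ k, p (k + 1) ≤ p k) → ∃ q, ∀ k, q ≤ p k)
    (D : ℕ → P → Prop) (p₀ : P) (hD : ∀ k, ∀ p ≤ p₀, ∃ q ≤ p, D k q) :
    ∃ q ≤ p₀, ∀ k, ∃ r, q ≤ r ∧ r ≤ p₀ ∧ D k r := by
  choose! next hnext1 hnext2 using hD
  let s : ℕ → P := fun k => Nat.rec p₀ (fun k p => next k p) k
  have hs0 : ∀ k, s k ≤ p₀ := by
    intro k
    induction k with
    | zero => exact le_rfl
    | succ k ih => exact (hnext1 k _ ih).trans ih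
  obtain ⟨q, hq⟩ := hσ s (fun k => hnext1 k _ (hs0 k))
  exact ⟨q, hq 0, fun k => ⟨s (k + 1), hq (k + 1), hs0 (k + 1), hnext2 k _ (hs0 k)⟩⟩

theorem abstract_main [Nonempty P]
    (hmono : ∀ p q : P, q ≤ p → B q ⊆ B p)
    (hσ : ∀ p : ℕ → P, (∀ k, p (k + 1) ≤ p k) → ∃ q, ∀ k, q ≤ p k)
    (hext : ∀ p : P, ∀ U, IsOpen U → (U ∩ B p).Nonempty → ∃ q ≤ p, B q ⊆ U)
    (htwo : ∀ p : P, ∃ z ∈ B p, ∃ w ∈ B p, z ≠ w)
    (𝒰 : Set (Set Z)) (hopen : ∀ U ∈ 𝒰, IsOpen U) (hT0 : T0Separating 𝒰) :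
    ¬ WeaklySigmaPointFinite 𝒰 := by
  classical
  rintro ⟨𝒱, h𝒱, hW⟩
  obtain ⟨p₀⟩ := ‹Nonempty P›
  -- Step 1: decide goodness of all the subfamilies
  obtain ⟨p, -, hp⟩ := exists_generic hσ
    (fun n q => Good B (𝒱 n) q ∨ ∀ r ≤ q, ¬ Good B (𝒱 n) r) p₀ (by
      intro n q _
      by_cases h : ∃ r ≤ q, Good B (𝒱 n) r
      · obtain ⟨r, hr, hg⟩ := h
        exact ⟨r, hr, Or.inl hg⟩
      · push Not at h
        exact ⟨q, le_rfl, Or.inr h⟩)
  have hp' : ∀ n, Good B (𝒱 n) p ∨ ∀ r ≤ p, ¬ Good B (𝒱 n) r := by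
    intro n
    obtain ⟨r, hpr, -, hr⟩ := hp n
    rcases hr with hr | hr
    · left
      refine Countable.mono ?_ hr
      rintro U ⟨hU, hne⟩
      exact ⟨hU, hne.mono (inter_subset_inter_right _ (hmono _ _ hpr))⟩
    · right
      exact fun s hs => hr s (hs.trans hpr)
  -- Step 2: a generic point for the bad subfamilies
  have hforce : ∀ n, (∀ r ≤ p, ¬ Good B (𝒱 n) r) → ∀ m, ∀ q ≤ p, ∃ r ≤ q, Forces B (𝒱 n) m r := by
    intro n hn m
    induction m with
    | zero =>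
      intro q _
      exact ⟨q, le_rfl, ∅, rfl, by simp⟩
    | succ m ih =>
      intro q hq
      obtain ⟨r, hr, S, hS, hSU⟩ := ih q hq
      have hbad := hn r (hr.trans hq)
      obtain ⟨U, ⟨hU, hne⟩, hUS⟩ : ∃ U ∈ {U ∈ 𝒱 n | (U ∩ B r).Nonempty}, U ∉ (S : Set (Set Z)) := by
        by_contra hcon
        push Not at hcon
        exact hbad (S.countable_toSet.mono hcon)
      obtain ⟨s, hs, hsU⟩ := hext r U (hopen U (h𝒱 n hU)) hne
      refine ⟨s, hs.trans hr, insert U S, ?_, ?_⟩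
      · rw [Finset.card_insert_of_notMem (by simpa using hUS), hS]
      · intro V hV
        rcases Finset.mem_insert.mp hV with rfl | hV
        · exact ⟨hU, hsU⟩
        · exact ⟨(hSU V hV).1, (hmono _ _ hs).trans (hSU V hV).2⟩
  obtain ⟨q, hqp, hq⟩ := exists_generic hσ
    (fun k r => (∀ r ≤ p, ¬ Good B (𝒱 k.unpair.1) r) → Forces B (𝒱 k.unpair.1) k.unpair.2 r) p (by
      intro k r hr
      by_cases h : ∀ r ≤ p, ¬ Good B (𝒱 k.unpair.1) r
      · obtain ⟨s, hs, hf⟩ := hforce _ h k.unpair.2 r hr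
        exact ⟨s, hs, fun _ => hf⟩
      · exact ⟨r, le_rfl, fun h' => absurd h' h⟩)
  obtain ⟨z, hz, -⟩ := htwo q
  have hzbad : ∀ n, (∀ r ≤ p, ¬ Good B (𝒱 n) r) → ¬ PointFiniteAt (𝒱 n) z := by
    intro n hn hfin
    obtain ⟨r, hqr, -, hr⟩ := hq (Nat.pair n (hfin.toFinset.card + 1))
    rw [Nat.unpair_pair] at hr
    obtain ⟨S, hS, hSU⟩ := hr hn
    have hsub : S ⊆ hfin.toFinset := by
      intro U hU
      rw [Finite.mem_toFinset]
      exact ⟨(hSU U hU).1, (hSU U hU).2 (hmono _ _ hqr hz)⟩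
    have := Finset.card_le_card hsub
    omega
  -- Step 3: only countably many members of the family meet `B p`
  have hcount : {U ∈ 𝒰 | (U ∩ B p).Nonempty}.Countable := by
    have hsub : {U ∈ 𝒰 | (U ∩ B p).Nonempty} ⊆
        ⋃ n ∈ {n | Good B (𝒱 n) p}, {U ∈ 𝒱 n | (U ∩ B p).Nonempty} := by
      rintro U ⟨hU, hne⟩
      rw [hW z] at hU
      obtain ⟨n, hn, hUn⟩ := mem_iUnion₂.mp hU
      refine mem_iUnion₂.mpr ⟨n, ?_, hUn, hne⟩
      rcases hp' n with h | h
      · exact h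
      · exact absurd hn (hzbad n h)
    have hc : (⋃ n ∈ {n | Good B (𝒱 n) p}, {U ∈ 𝒱 n | (U ∩ B p).Nonempty}).Countable :=
      Countable.biUnion (to_countable {n | Good B (𝒱 n) p}) fun n hn => hn
    exact hc.mono hsub
  -- Step 4: decide all these countably many open sets
  obtain ⟨W, hWr⟩ : ∃ W : ℕ → Set Z, insert ∅ {U ∈ 𝒰 | (U ∩ B p).Nonempty} = range W :=
    (hcount.insert ∅).exists_eq_range (insert_nonempty _ _)
  have hWo : ∀ k, IsOpen (W k) := by
    intro k
    have : W k ∈ insert ∅ {U ∈ 𝒰 | (U ∩ B p).Nonempty} := hWr ▸ mem_range_self k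
    rcases this with h | h
    · rw [h]; exact isOpen_empty
    · exact hopen _ h.1
  obtain ⟨r, hrp, hr⟩ := exists_generic hσ
    (fun k q => B q ⊆ W k ∨ ¬ (W k ∩ B q).Nonempty) p (by
      intro k q _
      by_cases h : (W k ∩ B q).Nonempty
      · obtain ⟨s, hs, hsW⟩ := hext q (W k) (hWo k) h
        exact ⟨s, hs, Or.inl hsW⟩
      · exact ⟨q, le_rfl, Or.inr h⟩)
  obtain ⟨x, hx, y, hy, hxy⟩ := htwo r
  obtain ⟨U, hU, hUxy⟩ := hT0 x y hxy
  have hUp : (U ∩ B p).Nonempty := by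
    rcases hUxy with ⟨h, -⟩ | ⟨h, -⟩
    · exact ⟨x, h, hmono _ _ hrp hx⟩
    · exact ⟨y, h, hmono _ _ hrp hy⟩
  obtain ⟨k, hk⟩ : U ∈ range W := hWr ▸ mem_insert_of_mem _ ⟨hU, hUp⟩
  obtain ⟨s, hrs, -, hs⟩ := hr k
  rw [hk] at hs
  have hx' := hmono _ _ hrs hx
  have hy' := hmono _ _ hrs hy
  rcases hs with hs | hs
  · rcases hUxy with ⟨-, h⟩ | ⟨-, h⟩
    · exact h (hs hy')
    · exact h (hs hx')
  · rcases hUxy with ⟨h, -⟩ | ⟨h, -⟩
    · exact hs ⟨x, h, hx'⟩
    · exact hs ⟨y, h, hy'⟩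

end abstractpart

section concrete

/-- The space `βω \ ω` of free ultrafilters on `ℕ`. -/
abbrev Free : Type := {u : Ultrafilter ℕ // ∀ s : Set ℕ, s.Finite → s ∉ u}

lemma isClosed_free : IsClosed {u : Ultrafilter ℕ | ∀ s : Set ℕ, s.Finite → s ∉ u} := by
  have : {u : Ultrafilter ℕ | ∀ s : Set ℕ, s.Finite → s ∉ u} =
      ⋂ s : Set ℕ, ⋂ _ : s.Finite, {u : Ultrafilter ℕ | s ∈ u}ᶜ := by
    ext u; simp
  rw [this]
  exact isClosed_iInter fun s => isClosed_iInter fun _ =>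
    (ultrafilter_isOpen_basic s).isClosed_compl

instance : CompactSpace Free := isCompact_iff_compactSpace.mp isClosed_free.isCompact

section
open Classical

/-- The characteristic function of the clopen set of all free ultrafilters containing `a`. -/
noncomputable def chi (a : Set ℕ) : Cp Free :=
  ⟨fun u => if a ∈ u.1 then 1 else 0, by
    refine continuous_const.if (f := fun _ => (1 : ℝ)) (g := fun _ => (0 : ℝ)) ?_ continuous_const
    intro u hu
    exfalso
    have hcl : IsClopen {u : Free | a ∈ u.1} :=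
      ⟨(ultrafilter_isClosed_basic a).preimage continuous_subtype_val,
        (ultrafilter_isOpen_basic a).preimage continuous_subtype_val⟩
    rw [hcl.frontier_eq] at hu
    exact hu⟩

lemma chi_apply_eq {a b : Set ℕ} {u : Free} (h : a ∈ u.1 ↔ b ∈ u.1) :
    (chi a).1 u = (chi b).1 u := by
  show (if a ∈ u.1 then (1 : ℝ) else 0) = if b ∈ u.1 then 1 else 0
  rw [if_congr h rfl rfl]

lemma chi_mem_iff {a b : Set ℕ} {u : Free} (h : (chi a).1 u = (chi b).1 u) :
    a ∈ u.1 ↔ b ∈ u.1 := by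
  change (if a ∈ u.1 then (1 : ℝ) else 0) = (if b ∈ u.1 then 1 else 0) at h
  by_cases ha : a ∈ u.1 <;> by_cases hb : b ∈ u.1 <;> simp_all

end

/-- Conditions. -/
structure Cond where
  /-- the current approximation -/
  a : Set ℕ
  /-- the undecided part -/
  e : Set ℕ
  inf : e.Infinite

instance : Preorder Cond where
  le q p := (q.e \ p.e).Finite ∧ (symmDiff q.a p.a \ p.e).Finite
  le_refl p := by simp
  le_trans r q p hrq hqp := by
    refine ⟨(hrq.1.union hqp.1).subset ?_, ((hrq.2.union hqp.1).union hqp.2).subset ?_⟩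
    · rintro n ⟨h1, h2⟩
      by_cases h : n ∈ q.e
      · exact Or.inr ⟨h, h2⟩
      · exact Or.inl ⟨h1, h⟩
    · rintro n ⟨h1, h2⟩
      by_cases h : n ∈ q.e
      · exact Or.inl (Or.inr ⟨h, h2⟩)
      · by_cases h3 : n ∈ symmDiff q.a p.a
        · exact Or.inr ⟨h3, h2⟩
        · refine Or.inl (Or.inl ⟨?_, h⟩)
          simp only [Set.mem_symmDiff] at h1 h3 ⊢
          tauto

lemma le_def {q p : Cond} : q ≤ p ↔ (q.e \ p.e).Finite ∧ (symmDiff q.a p.a \ p.e).Finite := Iff.rfl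

/-- The functions compatible with a condition. -/
def B (p : Cond) : Set (Cp Free) := {z | ∃ a, (symmDiff a p.a \ p.e).Finite ∧ z = chi a}

lemma B_mono (p q : Cond) (h : q ≤ p) : B q ⊆ B p := by
  rintro z ⟨a, ha, rfl⟩
  refine ⟨a, ?_, rfl⟩
  obtain ⟨h1, h2⟩ := le_def.mp h
  refine ((ha.union h1).union h2).subset ?_
  rintro n ⟨h3, h4⟩
  by_cases h : n ∈ q.e
  · exact Or.inl (Or.inr ⟨h, h4⟩)
  · by_cases h5 : n ∈ symmDiff q.a p.a
    · exact Or.inr ⟨h5, h4⟩
    · refine Or.inl (Or.inl ⟨?_, h⟩)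
      simp only [Set.mem_symmDiff] at h3 h5 ⊢
      tauto

/-- An infinite set contains an infinite subset avoiding finitely many given ultrafilters. -/
lemma exists_avoid (I : Finset Free) (e : Set ℕ) (he : e.Infinite) :
    ∃ e' ⊆ e, e'.Infinite ∧ ∀ u ∈ I, e' ∉ u.1 := by
  classical
  induction I using Finset.induction_on with
  | empty => exact ⟨e, subset_rfl, he, by simp⟩
  | insert u I hu ih =>
    obtain ⟨e', he'e, he', hI⟩ := ih
    let f := he'.natEmbedding
    set e1 : Set ℕ := range (fun n : ℕ => (f (2 * n) : ℕ)) with he1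
    set e2 : Set ℕ := range (fun n : ℕ => (f (2 * n + 1) : ℕ)) with he2
    have h1 : e1.Infinite := infinite_range_of_injective fun m n h => by
      have := f.injective (Subtype.ext h); omega
    have h2 : e2.Infinite := infinite_range_of_injective fun m n h => by
      have := f.injective (Subtype.ext h); omega
    have h1e : e1 ⊆ e' := by rintro _ ⟨n, rfl⟩; exact (f (2 * n)).2
    have h2e : e2 ⊆ e' := by rintro _ ⟨n, rfl⟩; exact (f (2 * n + 1)).2
    have hdisj : e1 ∩ e2 = ∅ := by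
      ext x
      simp only [mem_inter_iff, mem_empty_iff_false, iff_false, not_and]
      rintro ⟨m, rfl⟩ ⟨n, hn⟩
      have := f.injective (Subtype.ext hn)
      omega
    have hI1 : ∀ c ⊆ e', ∀ v ∈ I, c ∉ v.1 := fun c hc v hv h =>
      hI v hv (Filter.mem_of_superset h hc)
    by_cases hu1 : e1 ∈ u.1
    · refine ⟨e2, h2e.trans he'e, h2, fun v hv => ?_⟩
      rcases Finset.mem_insert.mp hv with rfl | hv
      · intro h
        have := Filter.inter_mem hu1 h
        rw [hdisj] at this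
        exact Ultrafilter.empty_notMem this
      · exact hI1 e2 h2e v hv
    · refine ⟨e1, h1e.trans he'e, h1, fun v hv => ?_⟩
      rcases Finset.mem_insert.mp hv with rfl | hv
      · exact hu1
      · exact hI1 e1 h1e v hv

lemma mem_iff_of_finite_symmDiff {a b e : Set ℕ} {u : Free} (he : e ∉ u.1)
    (h : (symmDiff a b \ e).Finite) : a ∈ u.1 ↔ b ∈ u.1 := by
  have h1 : symmDiff a b ∉ u.1 := by
    intro h2
    have h3 : e ∪ (symmDiff a b \ e) ∈ u.1 :=
      Filter.mem_of_superset h2 (by rw [union_sdiff_self]; exact subset_union_right)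
    rcases Ultrafilter.union_mem_iff.mp h3 with h4 | h4
    · exact he h4
    · exact u.2 _ h h4
  have h2 : (symmDiff a b)ᶜ ∈ u.1 := Ultrafilter.compl_mem_iff_notMem.mpr h1
  constructor
  · intro ha
    refine Filter.mem_of_superset (Filter.inter_mem ha h2) ?_
    rintro n ⟨h3, h4⟩
    rw [mem_compl_iff, Set.mem_symmDiff] at h4
    tauto
  · intro hb
    refine Filter.mem_of_superset (Filter.inter_mem hb h2) ?_
    rintro n ⟨h3, h4⟩
    rw [mem_compl_iff, Set.mem_symmDiff] at h4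
    tauto

lemma B_ext (p : Cond) (U : Set (Cp Free)) (hU : IsOpen U) (hne : (U ∩ B p).Nonempty) :
    ∃ q ≤ p, B q ⊆ U := by
  obtain ⟨z, hz, a, ha, rfl⟩ := hne
  obtain ⟨V, hV, rfl⟩ := isOpen_induced_iff.mp hU
  obtain ⟨I, t, ht, hsub⟩ := isOpen_pi_iff.mp hV _ hz
  obtain ⟨e', he'e, he', hI⟩ := exists_avoid I p.e p.inf
  refine ⟨⟨a, e', he'⟩, ⟨?_, ha⟩, ?_⟩
  · show (e' \ p.e).Finite
    rw [sdiff_eq_empty.mpr he'e]
    exact finite_empty
  · rintro _ ⟨b, hb, rfl⟩
    apply hsub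
    intro u hu
    rw [chi_apply_eq (mem_iff_of_finite_symmDiff (hI u hu) hb)]
    exact (ht u hu).2

lemma B_two (p : Cond) : ∃ z ∈ B p, ∃ w ∈ B p, z ≠ w := by
  refine ⟨chi p.a, ⟨p.a, by simp, rfl⟩, chi (symmDiff p.a p.e), ⟨symmDiff p.a p.e, ?_, rfl⟩, ?_⟩
  · have : symmDiff (symmDiff p.a p.e) p.a \ p.e = ∅ := by
      ext n
      simp only [Set.mem_sdiff, Set.mem_symmDiff, mem_empty_iff_false, iff_false]
      tauto
    rw [this]
    exact finite_empty
  · intro h
    have : NeBot (cofinite ⊓ 𝓟 p.e) := p.inf.cofinite_inf_principal_neBot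
    set u := Ultrafilter.of (cofinite ⊓ 𝓟 p.e) with hu
    have hle : (u : Filter ℕ) ≤ cofinite ⊓ 𝓟 p.e := Ultrafilter.of_le _
    have he : p.e ∈ u := hle (Filter.mem_inf_of_right (mem_principal_self _))
    have hfree : ∀ s : Set ℕ, s.Finite → s ∉ u := by
      intro s hs hsu
      have : sᶜ ∈ u := hle (Filter.mem_inf_of_left hs.compl_mem_cofinite)
      exact Ultrafilter.compl_mem_iff_notMem.mp this hsu
    have h1 : p.a ∈ u ↔ symmDiff p.a p.e ∈ u :=
      chi_mem_iff (u := ⟨u, hfree⟩) (congrFun (congrArg Subtype.val h) ⟨u, hfree⟩)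
    by_cases ha : p.a ∈ u
    · have h2 := Filter.inter_mem (Filter.inter_mem ha he) (h1.mp ha)
      have h3 : p.a ∩ p.e ∩ symmDiff p.a p.e = ∅ := by
        ext n
        simp only [mem_inter_iff, Set.mem_symmDiff, mem_empty_iff_false, iff_false]
        tauto
      rw [h3] at h2
      exact Ultrafilter.empty_notMem h2
    · have h2 := Filter.inter_mem (Ultrafilter.compl_mem_iff_notMem.mpr ha) he
      refine ha (h1.mpr (Filter.mem_of_superset h2 ?_))
      rintro n ⟨h3, h4⟩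
      exact Or.inr ⟨h4, h3⟩

lemma cond_sigma_closed (p : ℕ → Cond) (hp : ∀ k, p (k + 1) ≤ p k) : ∃ q, ∀ k, q ≤ p k := by
  classical
  have hanti : ∀ j k, j ≤ k → p k ≤ p j := fun j k h => antitone_nat_of_succ_le hp h
  -- the intersections of the first `k` undecided parts are infinite
  have hinf : ∀ k, {n | ∀ j ≤ k, n ∈ (p j).e}.Infinite := by
    intro k hfin
    have h1 : (⋃ j ∈ Iic k, ((p k).e \ (p j).e)).Finite :=
      (finite_Iic k).biUnion fun j hj => (hanti j k hj).1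
    refine (p k).inf ((hfin.union h1).subset fun n hn => ?_)
    by_cases h : ∀ j ≤ k, n ∈ (p j).e
    · exact Or.inl h
    · push Not at h
      obtain ⟨j, hj, hnj⟩ := h
      exact Or.inr (mem_iUnion₂.mpr ⟨j, hj, hn, hnj⟩)
  have hex : ∀ k, ∃ n, (∀ j ≤ k, n ∈ (p j).e) ∧ k < n := by
    intro k
    obtain ⟨n, hn, hkn⟩ := (hinf k).exists_gt k
    exact ⟨n, hn, hkn⟩
  choose x hx hxk using hex
  have hxinf : (range x).Infinite := by
    intro hfin
    obtain ⟨M, hM⟩ := hfin.bddAbove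
    have := hM (mem_range_self M)
    have := hxk M
    omega
  let a : Set ℕ := {n | ∃ h : ∃ k, n ∉ (p k).e, n ∈ (p (Nat.find h)).a}
  refine ⟨⟨a, range x, hxinf⟩, fun k => ⟨?_, ?_⟩⟩
  · refine ((finite_Iio k).image x).subset ?_
    rintro _ ⟨⟨i, rfl⟩, hi⟩
    refine mem_image_of_mem x ?_
    by_contra hik
    exact hi (hx i k (not_lt.mp hik))
  · have h1 : (⋃ j ∈ Iic k, (symmDiff (p k).a (p j).a \ (p j).e)).Finite :=
      (finite_Iic k).biUnion fun j hj => (hanti j k hj).2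
    refine h1.subset ?_
    rintro n ⟨hn, hnk⟩
    have hex : ∃ k, n ∉ (p k).e := ⟨k, hnk⟩
    have hna : n ∈ a ↔ n ∈ (p (Nat.find hex)).a := by
      constructor
      · rintro ⟨_, h⟩; exact h
      · intro h; exact ⟨hex, h⟩
    refine mem_iUnion₂.mpr ⟨Nat.find hex, Nat.find_min' hex hnk, ?_, Nat.find_spec hex⟩
    have hn' : n ∈ symmDiff a (p k).a := hn
    rw [Set.mem_symmDiff] at hn' ⊢
    tauto

instance : Nonempty Cond := ⟨⟨∅, univ, infinite_univ⟩⟩

end concrete

lemma isOpen_of_isCozero {Z : Type} [TopologicalSpace Z] {U : Set Z} (h : IsCozero U) :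
    IsOpen U := by
  obtain ⟨g, hg, rfl⟩ := h
  exact isOpen_ne.preimage hg

/-- **Theorem.** There is a compact Hausdorff space `X` (in particular `X` is a Lindelöf Σ-space)
such that no family of cozero subsets of `C_p(X)` is both `T₀`-separating and weakly
σ-point-finite. -/
theorem result : ∃ (X : Type) (_ : TopologicalSpace X),
    CompactSpace X ∧ T2Space X ∧ IsLindelofSigma X ∧
      ∀ 𝒰 : Set (Set (Cp X)), (∀ U ∈ 𝒰, IsCozero U) →
        ¬ (T0Separating 𝒰 ∧ WeaklySigmaPointFinite 𝒰) := by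
  refine ⟨Free, inferInstance, inferInstance, inferInstance, ?_, ?_⟩
  · refine ⟨{univ}, {univ}, ?_, by simp, countable_singleton _, ?_⟩
    · rintro C rfl
      exact isCompact_univ
    · rintro C rfl U _ hU
      exact ⟨univ, rfl, subset_rfl, hU⟩
  · rintro 𝒰 h𝒰 ⟨h1, h2⟩
    exact abstract_main B B_mono cond_sigma_closed B_ext B_two 𝒰
      (fun U hU => isOpen_of_isCozero (h𝒰 U hU)) h1 h2

end Pool.Agent.Results.MP_0df558_gt.NoSeparatingFamily
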